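import Pool.Agent.J4H58.SB.Bas

/-!
# Project KB: coupling, one elementary move (PTB)
-/

set_option autoImplicit false

namespace Pool.Agent.J4H19.KB

open Pool.Agent.J4H58.SB Pool.Agent.R972.OP

variable {n N : ℕ} {R : SL n → SL n → Prop}

theorem rf_symm {i j : ℕ} (hi : i < 2 * N) (hj : j < 2 * N) (hij : i ≠ j) (p : ℕ) :
    rf N i j p = rf N j i p := by
  rw [rf_apply hi hj hij, rf_apply hj hi hij.symm]
  unfold mir
  split_ifs <;> omega

/-- exchanging the two related labels is impossible if the order would be reversed -/
theorem mem_of_rev (hS : Sy R) {s t : Fin n → ℕ} (hs : s ∈ cfgB N R) (ht : t ∈ cfgB N R)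
    {i j k : ℕ} (hi : i < 2 * N) (hj : j < 2 * N) (hij : i ≠ j) (hk : k < N)
    (hts : t = mvB N i j s) (hr : rf N i j (k + 1) < rf N i j k) :
    mvB N k (k + 1) s ∈ cfgB N R := by
  rw [mvB_mem_iff hS hs hk]
  rintro x y hxy ⟨hx, hy⟩
  obtain ⟨h1, -, -⟩ := mem_cfgB.mp hs
  have h2 := (mem_cfgB.mp ht).2.2 x y hxy
  rw [hts, ps_mvB hi hj hij h1, ps_mvB hi hj hij h1, hx, hy] at h2
  omega

theorem mir_lt_mir {k l : ℕ} (h : k < l) (hl : l < 2 * N) : mir N l < mir N k := by
  unfold mir
  omega

theorem W_mono {W c : ℕ → ℝ} {m : ℝ} (hW : WB N W c m) {a b : ℕ} (hab : a ≤ b)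
    (hb : b < 2 * N) : W a ≤ W b := by
  induction b, hab using Nat.le_induction with
  | base => exact le_rfl
  | succ b hab ih =>
    exact (ih (by omega)).trans (hW.wc.mono b hb).le

theorem om_anti {W : ℕ → ℝ} {i j : ℕ} (hi : i < 2 * N) (hj : j < 2 * N) :
    om N W j i = -om N W i j := by
  unfold om
  by_cases h : j = mir N i
  · have h' : i = mir N j := by rw [h, mir_mir hi]
    rw [if_pos h, if_pos h']
    ring
  · have h' : ¬ i = mir N j := fun h' => h (by rw [h', mir_mir hj])
    rw [if_neg h, if_neg h']
    ring

/-- the change of `W` under the elementary move -/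
theorem W_rf {W c : ℕ → ℝ} {m : ℝ} (hW : WB N W c m) {k : ℕ} (hk : k < N) {p : ℕ}
    (hp : p < 2 * N) : W (rf N k (k + 1) p) - W p =
      (if p = k ∨ p = mir N (k + 1) then W (k + 1) - W k else 0) -
        (if p = k + 1 ∨ p = mir N k then W (k + 1) - W k else 0) := by
  have o1 := hW.odd k (by omega)
  have o2 := hW.odd (k + 1) (by omega)
  rw [rf_succ hk]
  have hm1 : mir N (k + 1) = 2 * N - 1 - (k + 1) := rfl
  have hm0 : mir N k = 2 * N - 1 - k := rfl
  by_cases hk1 : k + 1 = N
  · -- the central exchange
    have e1 : mir N k = k + 1 := by rw [hm0]; omega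
    have e2 : mir N (k + 1) = k := by rw [hm1]; omega
    rw [e1, e2]
    by_cases h1 : p = k
    · rw [if_pos h1, if_pos (Or.inl h1), if_neg (by omega), h1]; ring
    · by_cases h2 : p = k + 1
      · rw [if_neg h1, if_pos h2, if_neg (by omega), if_pos (Or.inl h2), h2]; ring
      · rw [if_neg h1, if_neg h2, if_neg h2, if_neg h1, if_neg (by omega), if_neg (by omega)]
        ring
  · by_cases h1 : p = k
    · rw [if_pos h1, if_pos (Or.inl h1), if_neg (by rw [hm0]; omega), h1]; ring
    · by_cases h2 : p = k + 1
      · rw [if_neg h1, if_pos h2, if_neg (by rw [hm1]; omega), if_pos (Or.inl h2), h2]; ring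
      · by_cases h3 : p = mir N k
        · rw [if_neg h1, if_neg h2, if_pos h3, if_neg (by rw [hm1]; omega), if_pos (Or.inr h3),
            h3, o1, o2]
          ring
        · by_cases h4 : p = mir N (k + 1)
          · rw [if_neg h1, if_neg h2, if_neg h3, if_pos h4, if_pos (Or.inr h4),
              if_neg (by omega), h4, o1, o2]
            ring
          · rw [if_neg h1, if_neg h2, if_neg h3, if_neg h4, if_neg (by omega), if_neg (by omega)]
            ring

theorem t_PTB : S_PTB := by
  intro n N R W c m F M hS hW hM hF s hs i j hij hjN ht hD k hk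
  obtain ⟨t, htd⟩ : ∃ t, t = mvB N i j s := ⟨_, rfl⟩
  have hi : i < 2 * N := by omega
  have hne : i ≠ j := by omega
  have hk0 : k < 2 * N := by omega
  have hk1 : k + 1 < 2 * N := by omega
  have hkk : k ≠ k + 1 := by omega
  have hck := hW.wc.nonneg k hk1
  have hδ : 0 < W (k + 1) - W k := by
    have := hW.wc.mono k hk1
    linarith
  have s1 := (mem_cfgB.mp hs).1
  have t1 := (mem_cfgB.mp ht).1
  have homk : 0 < om N W k (k + 1) := by
    unfold om
    split_ifs <;> linarith
  -- bound when both moves are allowed
  have both : ∀ p q : ℕ, rf N k (k + 1) i = p → rf N k (k + 1) j = q → p < q → q < 2 * N →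
      mvB N k (k + 1) s ∈ cfgB N R → mvB N k (k + 1) (mvB N i j s) ∈ cfgB N R →
      c k * (F (mvB N k (k + 1) (mvB N i j s)) - F (mvB N i j s)) -
        c k * (F (mvB N k (k + 1) s) - F s) ≤ M * (c k * (om N W p q - om N W i j)) := by
    intro p q hp hq hpq hqN h1 h2
    have e := mvB_conj hk0 hk1 hkk hi hjN hne s1
    rw [hp, hq] at e
    have h3 : mvB N p q (mvB N k (k + 1) s) ∈ cfgB N R := by rw [← e]; exact h2
    have h4 := (abs_le.mp (hF _ h1 p q hpq hqN h3)).2
    rw [← e] at h4
    have h5 : c k * ((F (mvB N k (k + 1) (mvB N i j s)) - F (mvB N k (k + 1) s)) -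
        (F (mvB N i j s) - F s)) ≤ c k * (M * om N W p q - M * om N W i j) :=
      mul_le_mul_of_nonneg_left (by rw [hD]; linarith) hck
    linarith
  -- bounds when one move is allowed
  have one_t : mvB N k (k + 1) (mvB N i j s) ∈ cfgB N R →
      c k * (F (mvB N k (k + 1) (mvB N i j s)) - F (mvB N i j s)) ≤
        M * (c k * om N W k (k + 1)) := by
    intro h
    have h4 := (abs_le.mp (hF _ ht k (k + 1) (Nat.lt_succ_self k) hk1 h)).2
    have := mul_le_mul_of_nonneg_left h4 hck
    linarith
  have one_s : mvB N k (k + 1) s ∈ cfgB N R →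
      - (c k * (F (mvB N k (k + 1) s) - F s)) ≤ M * (c k * om N W k (k + 1)) := by
    intro h
    have h4 := (abs_le.mp (hF _ hs k (k + 1) (Nat.lt_succ_self k) hk1 h)).1
    have := mul_le_mul_of_nonneg_left h4 hck
    linarith
  have hMc : 0 ≤ M * c k := mul_nonneg hM hck
  have eiN : rf N k (k + 1) i < 2 * N := rf_lt hk0 hk1 hkk hi
  have ejN : rf N k (k + 1) j < 2 * N := rf_lt hk0 hk1 hkk hjN
  by_cases ha : (i = k ∧ j = k + 1) ∨ (i = mir N (k + 1) ∧ j = mir N k)
  · -- the reflection is the elementary move
    have e0 : mvB N i j s = mvB N k (k + 1) s := by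
      funext a
      show rf N i j (s a) = rf N k (k + 1) (s a)
      rw [rf_apply hi hjN hne, rf_apply hk0 hk1 hkk]
      have := s1 a
      unfold mir at ha ⊢
      split_ifs <;> omega
    have e1 : rf N k (k + 1) i = j := by
      rw [rf_apply hk0 hk1 hkk]
      unfold mir at ha ⊢
      split_ifs <;> omega
    have e2 : rf N k (k + 1) j = i := by
      rw [rf_apply hk0 hk1 hkk]
      unfold mir at ha ⊢
      split_ifs <;> omega
    rw [e1, e2, om_anti hi hjN]
    unfold ttB
    rw [e0] at ht hD ⊢
    rw [mvB_mvB hk0 hk1 hkk, if_pos hs, if_pos ht]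
    have e : c k * (F (mvB N k (k + 1) s) - F s) = c k * (M * om N W i j) := by rw [hD]
    linarith
  have hlt : rf N k (k + 1) i < rf N k (k + 1) j := by
    rw [rf_apply hk0 hk1 hkk, rf_apply hk0 hk1 hkk]
    unfold mir at ha ⊢
    split_ifs <;> omega
  -- the cases
  have hcases : (rf N i j (k + 1) < rf N i j k) ∨
      (om N W (rf N k (k + 1) i) (rf N k (k + 1) j) = om N W i j ∧
        (mvB N k (k + 1) (mvB N i j s) ∈ cfgB N R ↔ mvB N k (k + 1) s ∈ cfgB N R)) ∨
      om N W k (k + 1) ≤ om N W (rf N k (k + 1) i) (rf N k (k + 1) j) - om N W i j := by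
    have Wi := W_rf hW hk hi
    have Wj := W_rf hW hk hjN
    have hm : rf N k (k + 1) j = mir N (rf N k (k + 1) i) ↔ j = mir N i := by
      rw [← rf_mir hk0 hk1 hkk hi]
      exact (rf N k (k + 1)).injective.eq_iff
    have homk' : om N W k (k + 1) ≤ W (k + 1) - W k := by
      unfold om
      split_ifs <;> linarith
    have homd : om N W (rf N k (k + 1) i) (rf N k (k + 1) j) - om N W i j =
        if j = mir N i then ((W (rf N k (k + 1) j) - W j) - (W (rf N k (k + 1) i) - W i)) / 2
        else (W (rf N k (k + 1) j) - W j) - (W (rf N k (k + 1) i) - W i) := by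
      unfold om
      by_cases h : j = mir N i
      · rw [if_pos h, if_pos (hm.2 h), if_pos h]; ring
      · rw [if_neg h, if_neg (fun h' => h (hm.1 h')), if_neg h]; ring
    rw [Wi, Wj] at homd
    by_cases pi : i = k ∨ i = mir N (k + 1)
    · by_cases pj : j = k ∨ j = mir N (k + 1)
      · -- both positive
        right; left
        have ni : ¬ (i = k + 1 ∨ i = mir N k) := by unfold mir at *; omega
        have nj : ¬ (j = k + 1 ∨ j = mir N k) := by unfold mir at *; omega
        constructor
        · rw [if_pos pi, if_pos pj, if_neg ni, if_neg nj] at homd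
          have : om N W (rf N k (k + 1) i) (rf N k (k + 1) j) - om N W i j = 0 := by
            rw [homd]; split_ifs <;> ring
          linarith
        · rw [mvB_mem_iff hS ht hk, mvB_mem_iff hS hs hk]
          have e1 : ∀ x : SL n, ps N (mvB N i j s) x = k ↔ ps N s (ng x) = k + 1 := by
            intro x
            rw [ps_mvB hi hjN hne s1, ps_ng s1, rf_apply hi hjN hne]
            have := ps_lt s1 x
            unfold mir at *
            split_ifs <;> omega
          have e2 : ∀ x : SL n, ps N (mvB N i j s) x = k + 1 ↔ ps N s (ng x) = k := by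
            intro x
            rw [ps_mvB hi hjN hne s1, ps_ng s1, rf_apply hi hjN hne]
            have := ps_lt s1 x
            unfold mir at *
            split_ifs <;> omega
          constructor
          · rintro h x y hxy ⟨hx, hy⟩
            refine h (ng y) (ng x) (hS x y hxy) ⟨?_, ?_⟩
            · rw [e1]
              simpa [ng] using hy
            · rw [e2]
              simpa [ng] using hx
          · rintro h x y hxy ⟨hx, hy⟩
            exact h (ng y) (ng x) (hS x y hxy) ⟨(e2 y).1 hy, (e1 x).1 hx⟩
      · left
        rw [rf_apply hi hjN hne, rf_apply hi hjN hne]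
        unfold mir at *
        split_ifs <;> omega
    · by_cases ni : i = k + 1 ∨ i = mir N k
      · by_cases nj : j = k + 1 ∨ j = mir N k
        · -- both negative
          right; left
          have pj : ¬ (j = k ∨ j = mir N (k + 1)) := by unfold mir at *; omega
          constructor
          · rw [if_neg pi, if_neg pj, if_pos ni, if_pos nj] at homd
            have : om N W (rf N k (k + 1) i) (rf N k (k + 1) j) - om N W i j = 0 := by
              rw [homd]; split_ifs <;> ring
            linarith
          · rw [mvB_mem_iff hS ht hk, mvB_mem_iff hS hs hk]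
            have e1 : ∀ x : SL n, ps N (mvB N i j s) x = k ↔ ps N s (ng x) = k + 1 := by
              intro x
              rw [ps_mvB hi hjN hne s1, ps_ng s1, rf_apply hi hjN hne]
              have := ps_lt s1 x
              unfold mir at *
              split_ifs <;> omega
            have e2 : ∀ x : SL n, ps N (mvB N i j s) x = k + 1 ↔ ps N s (ng x) = k := by
              intro x
              rw [ps_mvB hi hjN hne s1, ps_ng s1, rf_apply hi hjN hne]
              have := ps_lt s1 x
              unfold mir at *
              split_ifs <;> omega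
            constructor
            · rintro h x y hxy ⟨hx, hy⟩
              refine h (ng y) (ng x) (hS x y hxy) ⟨?_, ?_⟩
              · rw [e1]
                simpa [ng] using hy
              · rw [e2]
                simpa [ng] using hx
            · rintro h x y hxy ⟨hx, hy⟩
              exact h (ng y) (ng x) (hS x y hxy) ⟨(e2 y).1 hy, (e1 x).1 hx⟩
        · -- negative, positive or zero
          right; right
          rw [if_neg pi, if_pos ni, if_neg nj] at homd
          rw [homd]
          by_cases pj : j = k ∨ j = mir N (k + 1)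
          · rw [if_pos pj]
            split_ifs <;> linarith
          · have hjm : ¬ j = mir N i := by unfold mir at *; omega
            rw [if_neg pj, if_neg hjm]
            linarith
      · by_cases nj : j = k + 1 ∨ j = mir N k
        · left
          rw [rf_apply hi hjN hne, rf_apply hi hjN hne]
          unfold mir at *
          split_ifs <;> omega
        · by_cases pj : j = k ∨ j = mir N (k + 1)
          · right; right
            have hjm : ¬ j = mir N i := by unfold mir at *; omega
            rw [if_neg pi, if_neg ni, if_neg nj, if_pos pj, if_neg hjm] at homd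
            linarith
          · right; left
            constructor
            · rw [if_neg pi, if_neg pj, if_neg ni, if_neg nj] at homd
              have : om N W (rf N k (k + 1) i) (rf N k (k + 1) j) - om N W i j = 0 := by
                rw [homd]; split_ifs <;> ring
              linarith
            · rw [mvB_mem_iff hS ht hk, mvB_mem_iff hS hs hk]
              have e1 : ∀ x : SL n, ps N (mvB N i j s) x = k ↔ ps N s x = k := by
                intro x
                rw [ps_mvB hi hjN hne s1, rf_apply hi hjN hne]
                have := ps_lt s1 x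
                unfold mir at *
                split_ifs <;> omega
              have e2 : ∀ x : SL n, ps N (mvB N i j s) x = k + 1 ↔ ps N s x = k + 1 := by
                intro x
                rw [ps_mvB hi hjN hne s1, rf_apply hi hjN hne]
                have := ps_lt s1 x
                unfold mir at *
                split_ifs <;> omega
              constructor
              · rintro h x y hxy ⟨hx, hy⟩
                exact h x y hxy ⟨(e1 x).2 hx, (e2 y).2 hy⟩
              · rintro h x y hxy ⟨hx, hy⟩
                exact h x y hxy ⟨(e1 x).1 hx, (e2 y).1 hy⟩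
  unfold ttB
  rcases hcases with hc | ⟨hc, hiff⟩ | hc
  · have h2 : mvB N k (k + 1) s ∈ cfgB N R :=
      mem_of_rev hS hs ht hi hjN hne hk rfl hc
    have h1 : mvB N k (k + 1) (mvB N i j s) ∈ cfgB N R :=
      mem_of_rev hS ht hs hi hjN hne hk (mvB_mvB hi hjN hne s).symm hc
    rw [if_pos h1, if_pos h2]
    exact both _ _ rfl rfl hlt ejN h2 h1
  · by_cases h2 : mvB N k (k + 1) s ∈ cfgB N R
    · have h1 := hiff.2 h2
      rw [if_pos h1, if_pos h2]
      exact both _ _ rfl rfl hlt ejN h2 h1
    · have h1 : ¬ mvB N k (k + 1) (mvB N i j s) ∈ cfgB N R := fun h => h2 (hiff.1 h)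
      rw [if_neg h1, if_neg h2, hc]
      simp
  · have hc2 : M * (c k * om N W k (k + 1)) ≤
        M * (c k * (om N W (rf N k (k + 1) i) (rf N k (k + 1) j) - om N W i j)) :=
      mul_le_mul_of_nonneg_left (mul_le_mul_of_nonneg_left hc hck) hM
    have hc3 : 0 ≤ M * (c k * om N W k (k + 1)) := mul_nonneg hM (mul_nonneg hck homk.le)
    by_cases h1 : mvB N k (k + 1) (mvB N i j s) ∈ cfgB N R
    · by_cases h2 : mvB N k (k + 1) s ∈ cfgB N R
      · rw [if_pos h1, if_pos h2]
        exact both _ _ rfl rfl hlt ejN h2 h1
      · rw [if_pos h1, if_neg h2]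
        have := one_t h1
        linarith
    · by_cases h2 : mvB N k (k + 1) s ∈ cfgB N R
      · rw [if_neg h1, if_pos h2]
        have := one_s h2
        linarith
      · rw [if_neg h1, if_neg h2]
        linarith

end Pool.Agent.J4H19.KB
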