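import Pool.Agent.J4H19.KB.Ptb

/-!
# Project KB: the one-particle equation (SUMB) and the eigenvalues (CONB)
-/

set_option autoImplicit false

namespace Pool.Agent.J4H19.KB

open Pool.Agent.J4H58.SB Pool.Agent.R972.OP Finset

theorem t_SUMB : S_SUMB := by
  intro N W c m hW p hp
  have hN : 1 ≤ N := by omega
  set a : ℕ → ℝ := fun k => c k * (W (k + 1) - W k) with ha
  have hsym : ∀ k, k + 1 < 2 * N → a (2 * N - 2 - k) = a k := by
    intro k hk
    simp only [ha]
    have o1 := hW.odd k (by omega)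
    have o2 := hW.odd (k + 1) hk
    have e1 : 2 * N - 2 - k + 1 = mir N k := by unfold mir; omega
    have e2 : 2 * N - 2 - k = mir N (k + 1) := by unfold mir; omega
    rw [hW.sym k hk, e1, o1]
    rw [show W (2 * N - 2 - k) = W (mir N (k + 1)) from by rw [← e2], o2]
    ring
  set q1 : ℕ := if p < N then p else 2 * N - 2 - p with hq1
  set q2 : ℕ := if p < N then p - 1 else 2 * N - 1 - p with hq2
  have hq1N : q1 < N := by rw [hq1]; split_ifs <;> omega
  have hq2N : q2 < N := by rw [hq2]; split_ifs <;> omega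
  have hterm : ∀ k ∈ range N, c k * (W (rf N k (k + 1) p) - W p) =
      (if k = q1 then (if p + 1 < 2 * N then a k else 0) else 0) -
        (if k = q2 then (if 0 < p then a k else 0) else 0) := by
    intro k hk
    rw [mem_range] at hk
    rw [W_rf hW hk hp]
    have h1 : (p = k ∨ p = mir N (k + 1)) ↔ (k = q1 ∧ p + 1 < 2 * N) := by
      rw [hq1]
      unfold mir
      split_ifs <;> omega
    have h2 : (p = k + 1 ∨ p = mir N k) ↔ (k = q2 ∧ 0 < p) := by
      rw [hq2]
      unfold mir
      split_ifs <;> omega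
    rw [if_congr h1 rfl rfl, if_congr h2 rfl rfl, ite_and, ite_and, mul_sub]
    congr 1
    · split_ifs <;> simp [ha]
    · split_ifs <;> simp [ha]
  rw [sum_congr rfl hterm, sum_sub_distrib, sum_ite_eq', sum_ite_eq',
    if_pos (mem_range.2 hq1N), if_pos (mem_range.2 hq2N)]
  have heq := hW.wc.eq p hp
  rw [← heq]
  congr 1
  · by_cases h : p + 1 < 2 * N
    · rw [if_pos h, if_pos h]
      have : a q1 = a p := by
        rw [hq1]
        split_ifs with h'
        · rfl
        · exact hsym p h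
      rw [this]
    · rw [if_neg h, if_neg h]
  · by_cases h : 0 < p
    · rw [if_pos h, if_pos h]
      have : a q2 = a (p - 1) := by
        rw [hq2]
        split_ifs with h'
        · rfl
        · rw [← hsym (p - 1) (by omega)]
          congr 1
          omega
      rw [this]
      simp only [ha]
      rw [Nat.sub_add_cancel h]
    · rw [if_neg h, if_neg h]

theorem W_lt {N : ℕ} {W c : ℕ → ℝ} {m : ℝ} (h : WB N W c m) {i j : ℕ} (hij : i < j)
    (hj : j < 2 * N) : W i < W j := by
  have h1 := h.wc.mono i (by omega)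
  have h2 := W_mono h (show i + 1 ≤ j by omega) hj
  linarith

theorem om_pos {N : ℕ} {W c : ℕ → ℝ} {m : ℝ} (h : WB N W c m) {i j : ℕ} (hij : i < j)
    (hj : j < 2 * N) : 0 < om N W i j := by
  have h1 := W_lt h hij hj
  unfold om
  split_ifs <;> linarith

theorem om_diff {N : ℕ} (W : ℕ → ℝ) {i j k : ℕ} (hi : i < 2 * N) (hk : k < N) :
    om N W (rf N k (k + 1) i) (rf N k (k + 1) j) - om N W i j =
      if j = mir N i then ((W (rf N k (k + 1) j) - W j) - (W (rf N k (k + 1) i) - W i)) / 2
        else (W (rf N k (k + 1) j) - W j) - (W (rf N k (k + 1) i) - W i) := by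
  have hm : rf N k (k + 1) j = mir N (rf N k (k + 1) i) ↔ j = mir N i := by
    rw [← rf_mir (show k < 2 * N by omega) (show k + 1 < 2 * N by omega) (by omega) hi]
    exact (rf N k (k + 1)).injective.eq_iff
  unfold om
  by_cases h : j = mir N i
  · rw [if_pos h, if_pos (hm.2 h), if_pos h]; ring
  · rw [if_neg h, if_neg (fun h' => h (hm.1 h')), if_neg h]; ring

theorem t_CONB : S_PTB → S_SUMB → S_CONB := by
  classical
  intro h hS n N R W c m lam F hSy hW heig hne
  set T : Finset ((Fin n → ℕ) × ℕ × ℕ) :=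
    (cfgB N R ×ˢ (range (2 * N) ×ˢ range (2 * N))).filter
      fun x => x.2.1 < x.2.2 ∧ mvB N x.2.1 x.2.2 x.1 ∈ cfgB N R with hT
  have memT : ∀ g i j, (g, i, j) ∈ T ↔
      g ∈ cfgB N R ∧ i < j ∧ j < 2 * N ∧ mvB N i j g ∈ cfgB N R := by
    intro g i j
    simp only [hT, mem_filter, mem_product, mem_range]
    constructor
    · rintro ⟨⟨h1, h2, h3⟩, h4, h5⟩
      exact ⟨h1, h4, h3, h5⟩
    · rintro ⟨h1, h2, h3, h4⟩
      exact ⟨⟨h1, h2.trans h3, h3⟩, h2, h4⟩
  obtain ⟨g0, hg0, k0, hk0, hm0, hF0⟩ := hne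
  have h0T : (g0, k0, k0 + 1) ∈ T := (memT _ _ _).2 ⟨hg0, by omega, by omega, hm0⟩
  obtain ⟨⟨s0, i, j⟩, hsT, hmax⟩ := exists_max_image T
    (fun x => |F (mvB N x.2.1 x.2.2 x.1) - F x.1| / om N W x.2.1 x.2.2) ⟨_, h0T⟩
  obtain ⟨hs0, hij, hj, ht0⟩ := (memT _ _ _).1 hsT
  set M : ℝ := |F (mvB N i j s0) - F s0| / om N W i j with hM
  have hWij : 0 < om N W i j := om_pos hW hij hj
  have hMpos : 0 < M := by
    have h1 := hmax _ h0T
    have h2 : 0 < |F (mvB N k0 (k0 + 1) g0) - F g0| / om N W k0 (k0 + 1) :=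
      div_pos (abs_pos.2 (sub_ne_zero.2 hF0)) (om_pos hW (by omega) (by omega))
    exact lt_of_lt_of_le h2 h1
  have hLip : ∀ g ∈ cfgB N R, ∀ i j, i < j → j < 2 * N → mvB N i j g ∈ cfgB N R →
      |F (mvB N i j g) - F g| ≤ M * om N W i j := by
    intro g hg i' j' hij' hj' hm'
    have h1 := hmax _ ((memT g i' j').2 ⟨hg, hij', hj', hm'⟩)
    exact (div_le_iff₀ (om_pos hW hij' hj')).1 h1
  have hD0 : |F (mvB N i j s0) - F s0| = M * om N W i j := by
    rw [hM, div_mul_cancel₀ _ hWij.ne']
  have hi : i < 2 * N := by omega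
  obtain ⟨s, hs, ht, hD⟩ : ∃ s ∈ cfgB N R, mvB N i j s ∈ cfgB N R ∧
      F (mvB N i j s) - F s = M * om N W i j := by
    rcases le_total 0 (F (mvB N i j s0) - F s0) with hc | hc
    · exact ⟨s0, hs0, ht0, by rw [← hD0, abs_of_nonneg hc]⟩
    · refine ⟨mvB N i j s0, ht0, by rwa [mvB_mvB hi hj hij.ne], ?_⟩
      rw [mvB_mvB hi hj hij.ne, ← hD0, abs_of_nonpos hc]
      ring
  have hsum : LLB N R c F (mvB N i j s) - LLB N R c F s ≤
      ∑ k ∈ range N, M * (c k * (om N W (rf N k (k + 1) i) (rf N k (k + 1) j) - om N W i j)) := by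
    unfold LLB
    rw [← sum_sub_distrib]
    refine sum_le_sum fun k hk => ?_
    exact h n N R W c m F M hSy hW hMpos.le hLip s hs i j hij hj ht hD k (mem_range.1 hk)
  have hsum2 : ∑ k ∈ range N, M * (c k * (om N W (rf N k (k + 1) i) (rf N k (k + 1) j) -
      om N W i j)) = -(M * om N W i j) := by
    have e1 := hS N W c m hW i hi
    have e2 := hS N W c m hW j hj
    rw [← mul_sum]
    have e3 : ∑ k ∈ range N, c k * (om N W (rf N k (k + 1) i) (rf N k (k + 1) j) - om N W i j) =
        if j = mir N i then ((m - W j) - (m - W i)) / 2 else (m - W j) - (m - W i) := by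
      rw [sum_congr rfl fun k hk => by rw [om_diff W hi (mem_range.1 hk)]]
      by_cases hji : j = mir N i
      · simp only [if_pos hji]
        rw [← e1, ← e2, ← sum_sub_distrib, sum_div]
        exact sum_congr rfl fun k _ => by ring
      · simp only [if_neg hji]
        rw [← e1, ← e2, ← sum_sub_distrib]
        exact sum_congr rfl fun k _ => by ring
    rw [e3]
    unfold om
    split_ifs <;> ring
  rw [hsum2, heig _ ht, heig _ hs] at hsum
  have hDpos : 0 < M * om N W i j := mul_pos hMpos hWij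
  have h3 : -lam * (M * om N W i j) ≤ -1 * (M * om N W i j) := by
    have h4 : -lam * F (mvB N i j s) - -lam * F s = -lam * (M * om N W i j) := by
      rw [← hD]; ring
    rw [h4] at hsum
    linarith
  nlinarith [le_of_mul_le_mul_right h3 hDpos]

end Pool.Agent.J4H19.KB
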